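import Pool.Agent.Helper66.LJ.Net

/-!
# Project LJ (MP_a499ba_nt): from the net to all directions, and from the levels `Y r` to real intervals `[X, X^4]`
-/

set_option autoImplicit false

namespace Pool.Agent.Helper66.LJ

open Finset MeasureTheory ProbabilityTheory Pool.Agent.Helper5.RM Pool.Agent.Helper96.AF Pool.Agent.Helper96.AG
  Pool.Agent.Helper66.LW

theorem loglog_bd {r n : ℕ} (hr : 5 ≤ r) (h1 : Y r ≤ n) (h2 : n ≤ Y (r + 1)) :
    3 ≤ n ∧ 1 ≤ Real.log (Real.log n) ∧ Real.log (Real.log n) ≤ r := by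
  have hY : 16 ≤ Y r := by
    have h3 : Y 2 ≤ Y r := Y_mono (by omega)
    have h4 : Y 2 = 16 := by
      unfold Y
      norm_num
    omega
  have hn : (16 : ℝ) ≤ n := by exact_mod_cast hY.trans h1
  have hn0 : (0 : ℝ) < n := by linarith
  have hY5 : Y 5 ≤ n := (Y_mono hr).trans h1
  have hlog : 2 ^ 5 * Real.log 2 ≤ Real.log n := by
    rw [← log_Y]
    exact Real.log_le_log (by exact_mod_cast Y_pos 5) (by exact_mod_cast hY5)
  have h9 := Real.log_two_gt_d9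
  have h10 : (3 : ℝ) ≤ Real.log n := by linarith
  refine ⟨by omega, ?_, ?_⟩
  · rw [Real.le_log_iff_exp_le (by linarith)]
    have := Real.exp_one_lt_d9
    linarith
  · have h3 : Real.log n ≤ 2 ^ (r + 1) := by
      have h4 : Real.log n ≤ Real.log (Y (r + 1)) := Real.log_le_log hn0 (by exact_mod_cast h2)
      rw [log_Y] at h4
      refine h4.trans ?_
      have := Real.log_two_lt_d9
      have h5 : (0 : ℝ) < 2 ^ (r + 1) := by positivity
      nlinarith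
    have h4 : Real.log (Real.log n) ≤ Real.log (2 ^ (r + 1)) := Real.log_le_log (by linarith) h3
    rw [Real.log_pow] at h4
    refine h4.trans ?_
    push_cast
    have := Real.log_two_lt_d9
    have h5 : (5 : ℝ) ≤ r := by exact_mod_cast hr
    nlinarith

theorem scale_r (r0 : ℕ) : ∃ X0 : ℝ, ∀ X : ℝ, X0 ≤ X → ∃ r : ℕ, r0 ≤ r ∧ X ≤ Y r ∧ (Y (r + 1) : ℝ) ≤ X ^ 4 := by
  refine ⟨(Y (r0 + 5) : ℝ) + 1, fun X hX => ?_⟩
  classical
  have hex : ∃ r : ℕ, X ≤ Y r := by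
    obtain ⟨n, hn⟩ := exists_nat_ge X
    refine ⟨n, hn.trans ?_⟩
    have h1 : n < 2 ^ n := Nat.lt_two_pow_self
    have h2 : 2 ^ n < 2 ^ 2 ^ n := Nat.lt_two_pow_self
    have h3 : n ≤ Y n := by
      unfold Y
      omega
    exact_mod_cast h3
  obtain ⟨r, hr1, hr2⟩ : ∃ r : ℕ, X ≤ Y r ∧ ∀ s < r, ¬ X ≤ Y s := ⟨Nat.find hex, Nat.find_spec hex, fun s hs => Nat.find_min hex hs⟩
  have hr3 : r0 + 5 < r := by
    by_contra hcon
    push Not at hcon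
    have h4 : (Y r : ℝ) ≤ Y (r0 + 5) := by exact_mod_cast Y_mono hcon
    linarith
  have h5 : (Y (r - 1) : ℝ) < X := not_le.1 (hr2 (r - 1) (by omega))
  have h6 : (Y r : ℝ) = (Y (r - 1) : ℝ) ^ 2 := by
    have := Y_succ (r - 1)
    rw [Nat.sub_add_cancel (by omega)] at this
    exact_mod_cast this
  have h7 : (Y (r + 1) : ℝ) = (Y r : ℝ) ^ 2 := by exact_mod_cast Y_succ r
  have h8 : (0 : ℝ) ≤ Y (r - 1) := Nat.cast_nonneg _
  refine ⟨r, by omega, hr1, ?_⟩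
  rw [h7, h6, ← pow_mul]
  exact pow_le_pow_left₀ h8 h5.le 4

theorem all_dir (δ C : ℝ) (hδ : 0 < δ) (hδ2 : δ ≤ 1 / 16) (hC : 0 ≤ C) (M L : ℝ → ℝ)
    (hM : ∀ x : ℝ, 3 ≤ x → |M x| ≤ C * Real.sqrt x * Real.log (Real.log x) ^ (1 / 4 + δ))
    (hL : ∀ x : ℝ, 3 ≤ x → |L x| ≤ C * Real.sqrt x * Real.log (Real.log x) ^ (1 / 4 + δ))
    (hlow : ∃ r0 : ℕ, ∀ r, r0 ≤ r → ∀ p ∈ net (mm r),
      ∃ n ∈ Finset.Icc (Y r) (Y (r + 1)), (r : ℝ) ^ (1 / 4 - δ) * Real.sqrt n < p.1 * M n + p.2 * L n) :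
    ∃ X0 : ℝ, ∀ X : ℝ, X0 ≤ X → ∀ a b : ℝ, ∃ x : ℝ, X ≤ x ∧ x ≤ X ^ 4 ∧ 1 ≤ Real.log (Real.log x) ∧
      (|a| + |b|) * (Real.sqrt x * Real.log (Real.log x) ^ (1 / 4 - 2 * δ)) ≤ a * M x + b * L x := by
  obtain ⟨r0, h0⟩ := hlow
  have ht : Filter.Tendsto (fun r : ℕ => (r : ℝ) ^ δ) Filter.atTop Filter.atTop :=
    (tendsto_rpow_atTop hδ).comp tendsto_natCast_atTop_atTop
  obtain ⟨r1, hr1⟩ := Filter.eventually_atTop.1 (ht.eventually_ge_atTop (1 + 2 * C))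
  obtain ⟨X0, hX0⟩ := scale_r (r0 + r1 + 5)
  refine ⟨X0, fun X hX a b => ?_⟩
  obtain ⟨r, hr, hXr, hrX⟩ := hX0 X hX
  have hr5 : 5 ≤ r := by omega
  have hrR : (1 : ℝ) ≤ r := by exact_mod_cast (show 1 ≤ r by omega)
  have hrR0 : (0 : ℝ) < r := by linarith
  -- the unit directions
  have key : ∀ a b : ℝ, |a| + |b| = 1 → ∃ n ∈ Finset.Icc (Y r) (Y (r + 1)),
      (r : ℝ) ^ (1 / 4 - 2 * δ) * Real.sqrt n ≤ a * M n + b * L n := by
    intro a b hab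
    obtain ⟨p, hp, hpa, hpb⟩ := net_near (mm_pos r) hab
    obtain ⟨n, hn, hn2⟩ := h0 r (by omega) p hp
    refine ⟨n, hn, ?_⟩
    obtain ⟨n3, l1, l2⟩ := loglog_bd hr5 (Finset.mem_Icc.1 hn).1 (Finset.mem_Icc.1 hn).2
    have n3' : (3 : ℝ) ≤ n := by exact_mod_cast n3
    have hs : 0 ≤ Real.sqrt n := Real.sqrt_nonneg _
    have hmr : (1 : ℝ) / mm r ≤ (r : ℝ) ^ (-(1 / 4 : ℝ)) := by
      rw [Real.rpow_neg hrR0.le, ← one_div]
      exact one_div_le_one_div_of_le (by positivity) (mm_low r)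
    have hll : Real.log (Real.log n) ^ (1 / 4 + δ) ≤ (r : ℝ) ^ (1 / 4 + δ) :=
      Real.rpow_le_rpow (by linarith) l2 (by linarith)
    have hbd : ∀ Z : ℝ, |Z| ≤ C * Real.sqrt n * Real.log (Real.log n) ^ (1 / 4 + δ) → ∀ d : ℝ, |d| ≤ 1 / mm r →
        -(C * (r : ℝ) ^ δ * Real.sqrt n) ≤ d * Z := by
      intro Z hZ d hd
      have e1 : |d * Z| ≤ C * (r : ℝ) ^ δ * Real.sqrt n := by
        rw [abs_mul]
        calc |d| * |Z| ≤ (r : ℝ) ^ (-(1 / 4 : ℝ)) * (C * Real.sqrt n * (r : ℝ) ^ (1 / 4 + δ)) := by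
              refine mul_le_mul (hd.trans hmr) (hZ.trans ?_) (abs_nonneg _) (by positivity)
              exact mul_le_mul_of_nonneg_left hll (by positivity)
          _ = C * Real.sqrt n * ((r : ℝ) ^ (-(1 / 4 : ℝ)) * (r : ℝ) ^ (1 / 4 + δ)) := by ring
          _ = C * Real.sqrt n * (r : ℝ) ^ δ := by
              rw [← Real.rpow_add hrR0]
              congr 2
              ring
          _ = _ := by ring
      exact (abs_le.1 e1).1
    have e1 := hbd _ (hM n n3') (a - p.1) hpa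
    have e2 := hbd _ (hL n n3') (b - p.2) hpb
    have e3 : (r : ℝ) ^ (1 / 4 - δ) = (r : ℝ) ^ δ * (r : ℝ) ^ (1 / 4 - 2 * δ) := by
      rw [← Real.rpow_add hrR0]
      congr 1
      ring
    have e4 : (r : ℝ) ^ δ ≤ (r : ℝ) ^ (1 / 4 - 2 * δ) := Real.rpow_le_rpow_of_exponent_le hrR (by linarith)
    have e5 : 1 + 2 * C ≤ (r : ℝ) ^ δ := hr1 r (by omega)
    have e6 : 0 < (r : ℝ) ^ (1 / 4 - 2 * δ) := by positivity
    have e7 : (r : ℝ) ^ (1 / 4 - 2 * δ) + 2 * C * (r : ℝ) ^ δ ≤ (r : ℝ) ^ (1 / 4 - δ) := by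
      rw [e3]
      calc (r : ℝ) ^ (1 / 4 - 2 * δ) + 2 * C * (r : ℝ) ^ δ ≤ (r : ℝ) ^ (1 / 4 - 2 * δ) + 2 * C * (r : ℝ) ^ (1 / 4 - 2 * δ) := by
            have := mul_le_mul_of_nonneg_left e4 (show 0 ≤ 2 * C by linarith)
            linarith
        _ = (1 + 2 * C) * (r : ℝ) ^ (1 / 4 - 2 * δ) := by ring
        _ ≤ (r : ℝ) ^ δ * (r : ℝ) ^ (1 / 4 - 2 * δ) := mul_le_mul_of_nonneg_right e5 e6.le
    have e8 := mul_le_mul_of_nonneg_right e7 hs
    have e9 : a * M n + b * L n = (p.1 * M n + p.2 * L n) + (a - p.1) * M n + (b - p.2) * L n := by ring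
    rw [e9]
    nlinarith
  rcases eq_or_lt_of_le (show 0 ≤ |a| + |b| by positivity) with hs | hs
  · obtain ⟨n, hn, hn2⟩ := key 1 0 (by norm_num)
    rw [Finset.mem_Icc] at hn
    obtain ⟨n3, l1, l2⟩ := loglog_bd hr5 hn.1 hn.2
    have ha : a = 0 := by
      rw [← abs_eq_zero]
      linarith [abs_nonneg a, abs_nonneg b]
    have hb : b = 0 := by
      rw [← abs_eq_zero]
      linarith [abs_nonneg a, abs_nonneg b]
    refine ⟨n, hXr.trans (by exact_mod_cast hn.1), le_trans (by exact_mod_cast hn.2) hrX, l1, ?_⟩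
    rw [ha, hb]
    simp
  · obtain ⟨n, hn, hn2⟩ := key (a / (|a| + |b|)) (b / (|a| + |b|)) (by
      rw [abs_div, abs_div, abs_of_pos hs, ← add_div, div_self hs.ne'])
    rw [Finset.mem_Icc] at hn
    obtain ⟨n3, l1, l2⟩ := loglog_bd hr5 hn.1 hn.2
    refine ⟨n, hXr.trans (by exact_mod_cast hn.1), le_trans (by exact_mod_cast hn.2) hrX, l1, ?_⟩
    have e1 : Real.sqrt n * Real.log (Real.log n) ^ (1 / 4 - 2 * δ) ≤ (r : ℝ) ^ (1 / 4 - 2 * δ) * Real.sqrt n := by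
      rw [mul_comm]
      exact mul_le_mul_of_nonneg_right (Real.rpow_le_rpow (by linarith) l2 (by linarith)) (Real.sqrt_nonneg _)
    have e2 := mul_le_mul_of_nonneg_left (e1.trans hn2) hs.le
    calc (|a| + |b|) * (Real.sqrt n * Real.log (Real.log n) ^ (1 / 4 - 2 * δ))
        ≤ (|a| + |b|) * (a / (|a| + |b|) * M n + b / (|a| + |b|) * L n) := e2
      _ = a * M n + b * L n := by
        field_simp

end Pool.Agent.Helper66.LJ
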