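import Pool.Agent.Helper66.LW.LF
import Pool.Agent.Helper66.LW.LG

/-!
# Project LJ (MP_a499ba_nt): linear combinations of the two models, deterministic part
-/

set_option autoImplicit false

namespace Pool.Agent.Helper66.LJ

open Finset MeasureTheory ProbabilityTheory Pool.Agent.Helper5.RM Pool.Agent.Helper96.AF Pool.Agent.Helper96.AG
  Pool.Agent.Helper66.LW
open scoped ContDiff

/-- a linear combination of two functions -/
noncomputable def cmb (a b : ℝ) (h g : ℕ → ℝ) (n : ℕ) : ℝ := a * h n + b * g n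

/-- the same for the Dirichlet series -/
noncomputable def cmbD (a b : ℝ) (D E : ℝ → ℂ) (t : ℝ) : ℂ := (a : ℂ) * D t + (b : ℂ) * E t

theorem Hs_cmb (a b : ℝ) (h g : ℕ → ℝ) (n : ℕ) : Hs (cmb a b h g) n = a * Hs h n + b * Hs g n := by
  unfold Hs cmb
  rw [Finset.sum_add_distrib, ← Finset.mul_sum, ← Finset.mul_sum]

theorem Av_cmb (a b : ℝ) (h g : ℕ → ℝ) (v : ℝ) : Av (cmb a b h g) v = a * Av h v + b * Av g v := by
  unfold Av
  rw [Hs_cmb]
  ring

theorem Fs_cmb (r : ℕ) (a b : ℝ) (h g s : ℕ → ℝ) (n : ℕ) :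
    Fs r (cmb a b h g) s n = a * Fs r h s n + b * Fs r g s n := by
  unfold Fs
  rw [Hs_cmb, mul_add, mul_add, Finset.mul_sum, Finset.mul_sum]
  have : ∑ p ∈ BL r, s p * Hs (cmb a b h g) (n / p) =
      ∑ p ∈ BL r, a * (s p * Hs h (n / p)) + ∑ p ∈ BL r, b * (s p * Hs g (n / p)) := by
    rw [← Finset.sum_add_distrib]
    refine Finset.sum_congr rfl fun p _ => ?_
    rw [Hs_cmb]
    ring
  rw [this]
  ring

/-- convexity of the square -/
theorem sq_cmb {a b : ℝ} (hab : |a| + |b| ≤ 1) (x y : ℝ) : (a * x + b * y) ^ 2 ≤ |a| * x ^ 2 + |b| * y ^ 2 := by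
  have ha := abs_nonneg a
  have hb := abs_nonneg b
  have h1 : |a * x + b * y| ≤ |a| * |x| + |b| * |y| := by
    refine (abs_add_le _ _).trans ?_
    rw [abs_mul, abs_mul]
  have h2 : (a * x + b * y) ^ 2 ≤ (|a| * |x| + |b| * |y|) ^ 2 := by
    rw [← sq_abs (a * x + b * y)]
    exact pow_le_pow_left₀ (abs_nonneg _) h1 2
  have h3 : (|a| * |x| + |b| * |y|) ^ 2 ≤ (|a| + |b|) * (|a| * |x| ^ 2 + |b| * |y| ^ 2) := by
    nlinarith [mul_nonneg (mul_nonneg ha hb) (sq_nonneg (|x| - |y|))]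
  have h4 : 0 ≤ |a| * |x| ^ 2 + |b| * |y| ^ 2 := by positivity
  rw [sq_abs, sq_abs] at h3 h4
  calc _ ≤ _ := h2
    _ ≤ _ := h3
    _ ≤ 1 * (|a| * x ^ 2 + |b| * y ^ 2) := mul_le_mul_of_nonneg_right hab h4
    _ = _ := one_mul _

theorem int_Av_pow {h : ℕ → ℝ} (hh : ∀ n, |h n| ≤ 1) (n : ℕ) (a b : ℝ) :
    IntervalIntegrable (fun v => Av h v ^ n) volume a b := by
  have h1 : IntervalIntegrable (fun v : ℝ => Real.exp (v / 2) ^ n) volume a b :=
    (by fun_prop : Continuous fun v : ℝ => Real.exp (v / 2) ^ n).intervalIntegrable a b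
  refine h1.mono_fun ((measurable_Av h).pow_const n).aestronglyMeasurable
    (Filter.Eventually.of_forall fun v => ?_)
  beta_reduce
  rw [norm_pow, norm_pow]
  refine pow_le_pow_left₀ (norm_nonneg _) ?_ n
  rw [Real.norm_eq_abs, Real.norm_eq_abs, abs_of_pos (Real.exp_pos _)]
  exact abs_Av_le hh v

theorem Adm_cmb {r : ℕ} {h g : ℕ → ℝ} {D E : ℝ → ℂ} {B : ℝ} (hB : 0 ≤ B) {a b : ℝ} (hab : |a| + |b| ≤ 1)
    (h1 : Adm r h D B) (h2 : Adm r g E B) : Adm r (cmb a b h g) (cmbD a b D E) B := by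
  have ha := abs_nonneg a
  have hb := abs_nonneg b
  have hle : ∀ n, |cmb a b h g n| ≤ |a| * |h n| + |b| * |g n| := fun n => by
    unfold cmb
    refine (abs_add_le _ _).trans ?_
    rw [abs_mul, abs_mul]
  have hone : ∀ n, |cmb a b h g n| ≤ 1 := fun n => by
    have e1 := mul_le_mul_of_nonneg_left (h1.le_one n) ha
    have e2 := mul_le_mul_of_nonneg_left (h2.le_one n) hb
    have := hle n
    linarith
  have hpt : ∀ v, Av (cmb a b h g) v ^ 2 ≤ |a| * Av h v ^ 2 + |b| * Av g v ^ 2 := fun v => by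
    rw [Av_cmb]
    exact sq_cmb hab _ _
  have hI : IntegrableOn (fun v => |a| * (Av h v ^ 2 * Real.exp (-(sr r * v))) + |b| * (Av g v ^ 2 * Real.exp (-(sr r * v))))
      (Set.Ioi 0) := (h1.int.const_mul _).add (h2.int.const_mul _)
  have hpt2 : ∀ v, Av (cmb a b h g) v ^ 2 * Real.exp (-(sr r * v)) ≤
      |a| * (Av h v ^ 2 * Real.exp (-(sr r * v))) + |b| * (Av g v ^ 2 * Real.exp (-(sr r * v))) := fun v => by
    have := mul_le_mul_of_nonneg_right (hpt v) (Real.exp_nonneg (-(sr r * v)))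
    linarith
  have hint : IntegrableOn (fun v => Av (cmb a b h g) v ^ 2 * Real.exp (-(sr r * v))) (Set.Ioi 0) := by
    refine Integrable.mono' hI ?_ (Filter.Eventually.of_forall fun v => ?_)
    · exact (((measurable_Av _).pow_const 2).mul (by fun_prop)).aestronglyMeasurable
    · rw [Real.norm_eq_abs, abs_of_nonneg (by positivity)]
      exact hpt2 v
  have hii : ∀ f : ℕ → ℝ, (∀ n, |f n| ≤ 1) → IntervalIntegrable (fun v => Av f v ^ 2) volume 0 (2 * Vr r) :=
    fun f hf => int_Av_pow hf 2 0 (2 * Vr r)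
  refine ⟨hone, ?_, ?_, ?_, hint, ?_, ?_⟩
  · refine Summable.of_nonneg_of_le (fun n => by positivity) (fun n => ?_)
      ((h1.summ.mul_left |a|).add (h2.summ.mul_left |b|))
    have := mul_le_mul_of_nonneg_right (hle n) (Real.rpow_nonneg (Nat.cast_nonneg n) (-(1 / 2 + sr r)))
    linarith
  · exact (contDiff_const.mul h1.smooth).add (contDiff_const.mul h2.smooth)
  · intro t
    have e := ((h1.hasSum t).mul_left (a : ℂ)).add ((h2.hasSum t).mul_left (b : ℂ))
    have e1 : (fun n : ℕ => (cmb a b h g n : ℂ) * (n : ℂ) ^ (-(((1 / 2 + sr r : ℝ) : ℂ) + Complex.I * (t : ℂ)))) =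
        fun n : ℕ => (a : ℂ) * ((h n : ℂ) * (n : ℂ) ^ (-(((1 / 2 + sr r : ℝ) : ℂ) + Complex.I * (t : ℂ)))) +
          (b : ℂ) * ((g n : ℂ) * (n : ℂ) ^ (-(((1 / 2 + sr r : ℝ) : ℂ) + Complex.I * (t : ℂ)))) := by
      funext n
      unfold cmb
      push_cast
      ring
    rw [e1]
    exact e
  · have hVr := (Vr_pos r).le
    calc ∫ v in (0 : ℝ)..(2 * Vr r), Av (cmb a b h g) v ^ 2
        ≤ ∫ v in (0 : ℝ)..(2 * Vr r), (|a| * Av h v ^ 2 + |b| * Av g v ^ 2) := by
          refine intervalIntegral.integral_mono_on (by linarith) (hii _ hone) ?_ fun v _ => hpt v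
          exact ((hii _ h1.le_one).const_mul _).add ((hii _ h2.le_one).const_mul _)
      _ = |a| * (∫ v in (0 : ℝ)..(2 * Vr r), Av h v ^ 2) + |b| * ∫ v in (0 : ℝ)..(2 * Vr r), Av g v ^ 2 := by
          rw [intervalIntegral.integral_add ((hii _ h1.le_one).const_mul _) ((hii _ h2.le_one).const_mul _),
            intervalIntegral.integral_const_mul, intervalIntegral.integral_const_mul]
      _ ≤ |a| * B + |b| * B := add_le_add (mul_le_mul_of_nonneg_left h1.mass0 ha) (mul_le_mul_of_nonneg_left h2.mass0 hb)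
      _ = (|a| + |b|) * B := by ring
      _ ≤ 1 * B := mul_le_mul_of_nonneg_right hab hB
      _ = B := one_mul _
  · calc ∫ v in Set.Ioi (0 : ℝ), Av (cmb a b h g) v ^ 2 * Real.exp (-(sr r * v))
        ≤ ∫ v in Set.Ioi (0 : ℝ), (|a| * (Av h v ^ 2 * Real.exp (-(sr r * v))) + |b| * (Av g v ^ 2 * Real.exp (-(sr r * v)))) :=
          setIntegral_mono_on hint hI measurableSet_Ioi fun v _ => hpt2 v
      _ = |a| * (∫ v in Set.Ioi (0 : ℝ), Av h v ^ 2 * Real.exp (-(sr r * v))) +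
          |b| * ∫ v in Set.Ioi (0 : ℝ), Av g v ^ 2 * Real.exp (-(sr r * v)) := by
          rw [integral_add (h1.int.const_mul _) (h2.int.const_mul _), integral_const_mul, integral_const_mul]
      _ ≤ |a| * B + |b| * B := add_le_add (mul_le_mul_of_nonneg_left h1.mass1 ha) (mul_le_mul_of_nonneg_left h2.mass1 hb)
      _ = (|a| + |b|) * B := by ring
      _ ≤ 1 * B := mul_le_mul_of_nonneg_right hab hB
      _ = B := one_mul _

end Pool.Agent.Helper66.LJ
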