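import Pool.Agent.Helper66.LJ.Zt

/-!
# Project LJ (MP_a499ba_nt): lower bounds for finitely many functions at once, number of functions growing with the scale
-/

set_option autoImplicit false

namespace Pool.Agent.Helper66.LJ

open Finset MeasureTheory ProbabilityTheory Pool.Agent.Helper5.RM Pool.Agent.Helper96.AF Pool.Agent.Helper96.AG
  Pool.Agent.Helper66.LW

/-- the good events at one scale have small exceptional sets -/
theorem one_side (r : ℕ) (c : ℝ) (hc : 0 ≤ c) (G : Finset ℕ → Prop) (P : Finset ℕ → Prop)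
    (h : ∀ T ⊆ PP (Y r), G T → pr (BL r) (fun T' => P (T ∪ T')) ≤ c) :
    pr (PP (Y (r + 1))) (fun T => G (T ∩ PP (Y r)) ∧ P T) ≤ c := by
  classical
  rw [PP_Y_succ]
  unfold pr
  rw [av_union (BL_disj r)]
  refine (av_mono (G := fun _ => c) fun T hT => ?_).trans (av_const _ c).le
  by_cases hG : G T
  · refine le_trans ?_ (h T hT hG)
    refine pr_mono (P := fun T' => G ((T ∪ T') ∩ PP (Y r)) ∧ P (T ∪ T')) fun T' _ hp => hp.2
  · refine le_trans (le_of_eq ?_) hc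
    refine (av_congr (G := fun _ => (0 : ℝ)) fun T' hT' => ?_).trans (av_const _ 0)
    rw [if_neg]
    rintro ⟨h1, _⟩
    apply hG
    have h2 : (T ∪ T') ∩ PP (Y r) = T := by
      rw [Finset.union_inter_distrib_right, Finset.inter_eq_left.2 hT]
      have : T' ∩ PP (Y r) = ∅ := by
        rw [← Finset.disjoint_iff_inter_eq_empty]
        exact (BL_disj r).symm.mono_left hT'
      rw [this, Finset.union_empty]
    rwa [h2] at h1

theorem TT_inter {Ω : Type*} (ε : ℕ → Ω → ℝ) (ω : Ω) (r : ℕ) : TT ε ω (Y (r + 1)) ∩ PP (Y r) = TT ε ω (Y r) := by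
  unfold TT
  ext p
  simp only [Finset.mem_inter, Finset.mem_filter]
  constructor
  · rintro ⟨⟨_, h1⟩, h2⟩
    exact ⟨h2, h1⟩
  · rintro ⟨h2, h1⟩
    exact ⟨⟨PP_Y_mono (Nat.le_succ r) h2, h1⟩, h2⟩

theorem low_genI (K : Ker) (δ : ℝ) (hδ : 0 < δ) (hδ2 : δ ≤ 1 / 16) {Ω : Type*} [MeasurableSpace Ω] (μ : Measure Ω)
    (ε : ℕ → Ω → ℝ) (hM : Unif μ ε) {ι : Type*} (N : ℕ → Finset ι) (C : ℝ)
    (hN : ∀ r : ℕ, 1 ≤ r → ((N r).card : ℝ) ≤ C * (r : ℝ) ^ (1 / 2 : ℝ))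
    (hh : ι → ℕ → Finset ℕ → ℕ → ℝ) (DD : ι → ℕ → Finset ℕ → ℝ → ℂ) (F : ι → Finset ℕ → ℕ → ℝ)
    (hpred : ∀ (i : ι) (r : ℕ) (T T' : Finset ℕ), (∀ p ∈ PP (Y r), (p ∈ T ↔ p ∈ T')) → hh i r T = hh i r T')
    (hF : ∀ (i : ι) (r : ℕ) (T : Finset ℕ) (n : ℕ), n ≤ Y (r + 1) → Fs r (hh i r T) (sg T) n = F i T n)
    (G : ℕ → Finset ℕ → Prop)
    (hG1 : ∃ r0 : ℕ, ∀ r : ℕ, r0 ≤ r → ∀ T : Finset ℕ, G r T → ∀ i ∈ N r,
      Adm r (hh i r T) (DD i r T) (2 ^ r * (r : ℝ) ^ (-(1 / 2) + δ)))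
    (hG2 : ∃ r0 : ℕ, ∀ r : ℕ, r0 ≤ r → ∀ T : Finset ℕ, G r T → ∀ i ∈ N r, ∀ k : ℕ, 2 ^ (r / 4) ≤ k → k ≤ 2 ^ r →
      2 ^ r * (r : ℝ) ^ (-(1 / 2) - δ) ≤ ∫ t in (1 / 16 : ℝ)..(1 / 8), (1 - Real.cos (k * t)) * ‖DD i r T t‖ ^ 2)
    (hG3 : ∀ᵐ ω ∂μ, ∃ r0 : ℕ, ∀ r, r0 ≤ r → G r (TT ε ω (Y r))) :
    ∀ᵐ ω ∂μ, ∃ r0 : ℕ, ∀ r, r0 ≤ r → ∀ i ∈ N r,
      ∃ n ∈ Finset.Icc (Y r) (Y (r + 1)), (r : ℝ) ^ (1 / 4 - δ) * Real.sqrt n < F i (TT ε ω (Y (r + 1))) n := by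
  obtain ⟨r1, h1⟩ := hG1
  obtain ⟨r2, h2⟩ := hG2
  obtain ⟨r3, h3⟩ := one_scale K δ hδ hδ2
  -- change of the sign set
  have hsplit : ∀ (i : ι) (r : ℕ) (T T' : Finset ℕ), T ⊆ PP (Y r) → T' ⊆ BL r → ∀ n ∈ Finset.Icc (Y r) (Y (r + 1)),
      F i (T ∪ T') n = Fs r (hh i r T) (sg T') n := by
    intro i r T T' hT hT' n hn
    rw [← hF i r (T ∪ T') n (Finset.mem_Icc.1 hn).2]
    have e1 : hh i r (T ∪ T') = hh i r T := by
      apply hpred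
      intro p hp
      rw [Finset.mem_union]
      constructor
      · rintro (h | h)
        · exact h
        · exact absurd hp (Finset.disjoint_right.1 (BL_disj r) (hT' h))
      · exact Or.inl
    rw [e1]
    unfold Fs
    congr 1
    refine Finset.sum_congr rfl fun p hp => ?_
    congr 1
    apply sg_congr
    rw [Finset.mem_union]
    constructor
    · rintro (h | h)
      · exact absurd (hT h) (Finset.disjoint_right.1 (BL_disj r) hp)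
      · exact h
    · exact Or.inr
  have hg : Summable (fun r : ℕ => C * (1 / (r : ℝ) ^ (3 / 2 : ℝ))) :=
    (Real.summable_one_div_nat_rpow.2 (by norm_num)).mul_left C
  have hup : ∀ᵐ ω ∂μ, ∃ i1 : ℕ, ∀ r, i1 ≤ r → ¬ (G r (TT ε ω (Y (r + 1)) ∩ PP (Y r)) ∧
      ∃ i ∈ N r, ∀ n ∈ Finset.Icc (Y r) (Y (r + 1)), F i (TT ε ω (Y (r + 1))) n ≤ (r : ℝ) ^ (1 / 4 - δ) * Real.sqrt n) := by
    refine bcU μ ε hM (fun r => Y (r + 1)) (fun r T => G r (T ∩ PP (Y r)) ∧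
      ∃ i ∈ N r, ∀ n ∈ Finset.Icc (Y r) (Y (r + 1)), F i T n ≤ (r : ℝ) ^ (1 / 4 - δ) * Real.sqrt n) _ hg (r1 + r2 + r3 + 1) fun r hr => ?_
    have hr0 : (0 : ℝ) < r := by exact_mod_cast (show 0 < r by omega)
    have hcard : (((N r).card : ℕ) : ℝ) * (1 / (r : ℝ) ^ 2) ≤ C * (1 / (r : ℝ) ^ (3 / 2 : ℝ)) := by
      have e1 : (r : ℝ) ^ 2 = (r : ℝ) ^ (1 / 2 : ℝ) * (r : ℝ) ^ (3 / 2 : ℝ) := by
        rw [← Real.rpow_add hr0, ← Real.rpow_natCast]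
        norm_num
      have h5 : 0 < (r : ℝ) ^ (1 / 2 : ℝ) := by positivity
      have h6 : 0 < (r : ℝ) ^ (3 / 2 : ℝ) := by positivity
      calc (((N r).card : ℕ) : ℝ) * (1 / (r : ℝ) ^ 2) ≤ (C * (r : ℝ) ^ (1 / 2 : ℝ)) * (1 / (r : ℝ) ^ 2) :=
            mul_le_mul_of_nonneg_right (hN r (by omega)) (by positivity)
        _ = C * (1 / (r : ℝ) ^ (3 / 2 : ℝ)) := by
            rw [e1]
            field_simp
    have hC0 : 0 ≤ C * (1 / (r : ℝ) ^ (3 / 2 : ℝ)) := le_trans (by positivity) hcard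
    refine one_side r _ hC0 (G r) _ fun T hT hGT => ?_
    refine (pr_exists (BL r) (N r) (fun i T' => ∀ n ∈ Finset.Icc (Y r) (Y (r + 1)), F i (T ∪ T') n ≤ (r : ℝ) ^ (1 / 4 - δ) * Real.sqrt n)).trans ?_
    refine le_trans (Finset.sum_le_sum (g := fun _ => 1 / (r : ℝ) ^ 2) fun i hi => ?_) ?_
    · refine le_trans (pr_mono fun T' hT' hp => ?_) (h3 r (by omega) (hh i r T) (DD i r T) (h1 r (by omega) T hGT i hi)
        (h2 r (by omega) T hGT i hi))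
      intro n hn
      rw [← hsplit i r T T' hT hT' n hn]
      exact hp n hn
    · rw [Finset.sum_const, nsmul_eq_mul]
      exact hcard
  filter_upwards [hup, hG3] with ω ⟨i1, hi1⟩ ⟨i3, hi3⟩
  refine ⟨i1 + i3, fun r hr i hi => ?_⟩
  have a1 := hi1 r (by omega)
  have a3 := hi3 r (by omega)
  rw [TT_inter] at a1
  by_contra hcon
  push Not at hcon
  exact a1 ⟨a3, i, hi, hcon⟩

end Pool.Agent.Helper66.LJ
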