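import Pool.Agent.Helper66.LJ.Gen

/-!
# Project LJ (MP_a499ba_nt): a net of directions, and the lower bound for all directions of the net
-/

set_option autoImplicit false

namespace Pool.Agent.Helper66.LJ

open Finset MeasureTheory ProbabilityTheory Pool.Agent.Helper5.RM Pool.Agent.Helper96.AF Pool.Agent.Helper96.AG
  Pool.Agent.Helper66.LW

open Classical in
/-- directions `(i/m, ± (1 - |i/m|))` -/
noncomputable def net (m : ℕ) : Finset (ℝ × ℝ) :=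
  (Finset.Icc (-(m : ℤ)) m ×ˢ ({1, -1} : Finset ℤ)).image
    (fun q : ℤ × ℤ => ((q.1 : ℝ) / m, (q.2 : ℝ) * (1 - |(q.1 : ℝ) / m|)))

theorem card_net (m : ℕ) : (net m).card ≤ 4 * m + 2 := by
  unfold net
  refine Finset.card_image_le.trans ?_
  rw [Finset.card_product, Int.card_Icc]
  have : ({1, -1} : Finset ℤ).card = 2 := by decide
  rw [this]
  omega

theorem net_norm {m : ℕ} (hm : 1 ≤ m) {p : ℝ × ℝ} (hp : p ∈ net m) : |p.1| + |p.2| = 1 := by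
  unfold net at hp
  obtain ⟨q, hq, rfl⟩ := Finset.mem_image.1 hp
  rw [Finset.mem_product, Finset.mem_Icc] at hq
  obtain ⟨⟨h1, h2⟩, h3⟩ := hq
  have hm0 : (0 : ℝ) < m := by exact_mod_cast hm
  have h4 : |(q.1 : ℝ) / m| ≤ 1 := by
    rw [abs_div, abs_of_pos hm0, div_le_one hm0, abs_le]
    constructor
    · have : ((-(m : ℤ) : ℤ) : ℝ) ≤ q.1 := by exact_mod_cast h1
      push_cast at this
      exact this
    · exact_mod_cast h2
  have h5 : |(q.2 : ℝ)| = 1 := by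
    rw [Finset.mem_insert, Finset.mem_singleton] at h3
    rcases h3 with h | h <;> rw [h] <;> norm_num
  show |(q.1 : ℝ) / m| + |(q.2 : ℝ) * (1 - |(q.1 : ℝ) / m|)| = 1
  rw [abs_mul, h5, one_mul, abs_of_nonneg (by linarith : 0 ≤ 1 - |(q.1 : ℝ) / m|)]
  ring

theorem net_near {m : ℕ} (hm : 1 ≤ m) {a b : ℝ} (hab : |a| + |b| = 1) :
    ∃ p ∈ net m, |a - p.1| ≤ 1 / m ∧ |b - p.2| ≤ 1 / m := by
  have hm0 : (0 : ℝ) < m := by exact_mod_cast hm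
  have ha1 : |a| ≤ 1 := by linarith [abs_nonneg b]
  obtain ⟨i, hi⟩ : ∃ i : ℤ, i = ⌊a * m⌋ := ⟨_, rfl⟩
  have h1 : (i : ℝ) ≤ a * m := by rw [hi]; exact Int.floor_le _
  have h2 : a * m < i + 1 := by rw [hi]; exact Int.lt_floor_add_one _
  have hlo : -(m : ℤ) ≤ i := by
    rw [hi, Int.le_floor]
    push_cast
    nlinarith [(abs_le.1 ha1).1]
  have hhi : i ≤ m := by
    have : (i : ℝ) ≤ m := by nlinarith [(abs_le.1 ha1).2]
    exact_mod_cast this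
  have h3 : |a - (i : ℝ) / m| ≤ 1 / m := by
    have e : a - (i : ℝ) / m = (a * m - i) / m := by field_simp
    rw [e, abs_div, abs_of_pos hm0, div_le_div_iff_of_pos_right hm0, abs_le]
    constructor <;> linarith
  have h4 : |(1 - |a|) - (1 - |(i : ℝ) / m|)| ≤ 1 / m := by
    have e : (1 - |a|) - (1 - |(i : ℝ) / m|) = |(i : ℝ) / m| - |a| := by ring
    rw [e]
    refine (abs_abs_sub_abs_le _ _).trans ?_
    rw [abs_sub_comm]
    exact h3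
  have hb : |b| = 1 - |a| := by linarith
  rcases le_total 0 b with hb0 | hb0
  · refine ⟨((i : ℝ) / m, ((1 : ℤ) : ℝ) * (1 - |(i : ℝ) / m|)), ?_, h3, ?_⟩
    · unfold net
      refine Finset.mem_image.2 ⟨(i, 1), ?_, rfl⟩
      rw [Finset.mem_product, Finset.mem_Icc]
      exact ⟨⟨hlo, hhi⟩, by simp⟩
    · show |b - ((1 : ℤ) : ℝ) * (1 - |(i : ℝ) / m|)| ≤ 1 / m
      rw [abs_of_nonneg hb0] at hb
      rw [hb, Int.cast_one, one_mul]
      exact h4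
  · refine ⟨((i : ℝ) / m, ((-1 : ℤ) : ℝ) * (1 - |(i : ℝ) / m|)), ?_, h3, ?_⟩
    · unfold net
      refine Finset.mem_image.2 ⟨(i, -1), ?_, rfl⟩
      rw [Finset.mem_product, Finset.mem_Icc]
      exact ⟨⟨hlo, hhi⟩, by simp⟩
    · show |b - ((-1 : ℤ) : ℝ) * (1 - |(i : ℝ) / m|)| ≤ 1 / m
      rw [abs_of_nonpos hb0] at hb
      have e : b - ((-1 : ℤ) : ℝ) * (1 - |(i : ℝ) / m|) = -((1 - |a|) - (1 - |(i : ℝ) / m|)) := by
        push_cast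
        linarith
      rw [e, abs_neg]
      exact h4

/-- the number of steps of the net at level `r` -/
def mm (r : ℕ) : ℕ := Nat.sqrt (Nat.sqrt r) + 1

theorem mm_pos (r : ℕ) : 1 ≤ mm r := Nat.le_add_left 1 _

theorem mm_low (r : ℕ) : (r : ℝ) ^ (1 / 4 : ℝ) ≤ mm r := by
  have h1 : r < mm r ^ 4 := by
    unfold mm
    have h2 : r < (Nat.sqrt r + 1) * (Nat.sqrt r + 1) := Nat.lt_succ_sqrt r
    have h3 : Nat.sqrt r < (Nat.sqrt (Nat.sqrt r) + 1) * (Nat.sqrt (Nat.sqrt r) + 1) := Nat.lt_succ_sqrt _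
    calc r < (Nat.sqrt r + 1) * (Nat.sqrt r + 1) := h2
      _ ≤ ((Nat.sqrt (Nat.sqrt r) + 1) * (Nat.sqrt (Nat.sqrt r) + 1)) * ((Nat.sqrt (Nat.sqrt r) + 1) * (Nat.sqrt (Nat.sqrt r) + 1)) :=
        Nat.mul_le_mul h3 h3
      _ = _ := by ring
  have h4 : (r : ℝ) ≤ (mm r : ℝ) ^ 4 := by exact_mod_cast h1.le
  calc (r : ℝ) ^ (1 / 4 : ℝ) ≤ ((mm r : ℝ) ^ 4) ^ (1 / 4 : ℝ) := Real.rpow_le_rpow (Nat.cast_nonneg _) h4 (by norm_num)
    _ = mm r := by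
      rw [← Real.rpow_natCast, ← Real.rpow_mul (Nat.cast_nonneg _)]
      norm_num

theorem card_low (r : ℕ) (hr : 1 ≤ r) : ((net (mm r)).card : ℝ) ≤ 14 * (r : ℝ) ^ (1 / 2 : ℝ) := by
  have h1 : ((net (mm r)).card : ℝ) ≤ 4 * (mm r : ℝ) + 2 := by exact_mod_cast card_net (mm r)
  have h2 : (mm r : ℝ) ≤ Real.sqrt r + 1 := by
    have h3 : mm r ≤ Nat.sqrt r + 1 := by
      unfold mm
      have := Nat.sqrt_le_self (Nat.sqrt r)
      omega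
    have h4 : (Nat.sqrt r : ℝ) ≤ Real.sqrt r := Real.nat_sqrt_le_real_sqrt
    calc (mm r : ℝ) ≤ (Nat.sqrt r : ℝ) + 1 := by exact_mod_cast h3
      _ ≤ _ := by linarith
  have h5 : 1 ≤ Real.sqrt r := by
    rw [Real.one_le_sqrt]
    exact_mod_cast hr
  rw [← Real.sqrt_eq_rpow]
  linarith

theorem joint_low (δ : ℝ) (hδ : 0 < δ) (hδ2 : δ ≤ 1 / 16) {Ω : Type*} [MeasurableSpace Ω] (μ : Measure Ω)
    (ε : ℕ → Ω → ℝ) (hM : Unif μ ε) : ∀ᵐ ω ∂μ, ∃ r0 : ℕ, ∀ r, r0 ≤ r → ∀ p ∈ net (mm r),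
      ∃ n ∈ Finset.Icc (Y r) (Y (r + 1)), (r : ℝ) ^ (1 / 4 - δ) * Real.sqrt n <
        p.1 * MM (TT ε ω (Y (r + 1))) n + p.2 * GM (TT ε ω (Y (r + 1))) n := by
  obtain ⟨K⟩ := ker_nonempty
  obtain ⟨r1, h1⟩ := adm_f δ hδ
  obtain ⟨r1', h1'⟩ := adm_g δ hδ
  obtain ⟨r2, h2⟩ := lower_Dc δ hδ
  obtain ⟨r3, h3⟩ := far_g
  have h4 : ∀ᵐ ω ∂μ, ∃ i1 : ℕ, ∀ i, i1 ≤ i → ¬ 1 < farg i (TT ε ω (Y i)) :=
    bcU μ ε hM Y (fun r T => 1 < farg r T) (fun r => 1 / (r : ℝ) ^ 2) (Real.summable_one_div_nat_pow.2 (by norm_num)) r3 h3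
  refine low_genI K δ hδ hδ2 μ ε hM (fun r => net (mm r)) 14 card_low
    (fun p r T => cmb p.1 p.2 (hf r T) (hg r T)) (fun p r T => cmbD p.1 p.2 (Df r T) (Dg r T))
    (fun p T n => p.1 * MM T n + p.2 * GM T n) ?_ ?_
    (fun r T => DI r T ≤ 2 * (r : ℝ) ^ (-(1 / 2) + δ / 2) ∧ DG (2 ^ r * r * 2) r T ≤ 2 * (r : ℝ) ^ (-(1 / 2) + δ / 2) ∧
      farg r T ≤ 1 ∧ Gch (δ / 4) r T) ?_ ?_ ?_
  · intro p r T T' h
    show cmb p.1 p.2 (hf r T) (hg r T) = cmb p.1 p.2 (hf r T') (hg r T')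
    rw [hf_pred r T T' h, hg_pred r T T' h]
  · intro p r T n hn
    show Fs r (cmb p.1 p.2 (hf r T) (hg r T)) (sg T) n = p.1 * MM T n + p.2 * GM T n
    rw [Fs_cmb, Fs_hf r T n hn, Fs_hg r T n hn]
  · refine ⟨r1 + r1', fun r hr T hG p hp => ?_⟩
    exact Adm_cmb (by positivity) (net_norm (mm_pos r) hp).le (h1 r (by omega) T hG.1) (h1' r (by omega) T hG.2.1 hG.2.2.1)
  · exact ⟨r2, fun r hr T hG p hp k hk1 hk2 => h2 r hr T hG.2.2.2 p.1 p.2 (net_norm (mm_pos r) hp) k hk1 hk2⟩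
  · filter_upwards [chaos_as (δ / 2) (by positivity) (by linarith) μ ε hM,
      chaosG_as (δ / 2) (by positivity) (by linarith) 2 (by norm_num) μ ε hM, h4, Gch_as (δ / 4) (by positivity) μ ε hM]
      with ω ⟨d, hd⟩ ⟨a, ha⟩ ⟨b, hb⟩ ⟨c, hc⟩
    refine ⟨a + b + c + d, fun r hr => ⟨hd r (by omega), ?_, not_lt.1 (hb r (by omega)), hc r (by omega)⟩⟩
    have := ha r (by omega)
    push_cast at this
    exact this

end Pool.Agent.Helper66.LJ
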