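import Pool.Agent.Helper66.LJ.Comb
import Pool.Agent.Helper66.AF.ZLow

/-!
# Project LJ (MP_a499ba_nt): the factor a + b ζ(2s) is bounded from below near the interval [1/16, 1/8]
-/

set_option autoImplicit false

namespace Pool.Agent.Helper66.LJ

open Finset MeasureTheory ProbabilityTheory Pool.Agent.Helper5.RM Pool.Agent.Helper96.AF Pool.Agent.Helper96.AG
  Pool.Agent.Helper66.LW

theorem zeta_im {σ t : ℝ} (h1 : 0 < σ) (h2 : σ ≤ 1 / 100) (h3 : 1 / 16 ≤ t) (h4 : t ≤ 1 / 8) :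
    1 ≤ |(riemannZeta (2 * (((1 / 2 + σ : ℝ) : ℂ) + Complex.I * (t : ℂ)))).im| ∧
      ‖riemannZeta (2 * (((1 / 2 + σ : ℝ) : ℂ) + Complex.I * (t : ℂ)))‖ ≤ 11 := by
  obtain ⟨s, hs⟩ : ∃ s : ℂ, s = 2 * (((1 / 2 + σ : ℝ) : ℂ) + Complex.I * (t : ℂ)) := ⟨_, rfl⟩
  have hre : s.re = 1 + 2 * σ := by
    rw [hs]
    simp
    ring
  have him : s.im = 2 * t := by
    rw [hs]
    simp
  rw [← hs]
  have hs1 : 1 < s.re := by rw [hre]; linarith
  have hsne : s - 1 ≠ 0 := by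
    intro h
    have := congrArg Complex.im h
    simp [him] at this
    linarith
  have hz := Pool.Agent.Helper66.AF.zeta_eq_J hs1
  have hJ := Pool.Agent.Helper66.AF.norm_J1_le (s := s) (by linarith)
  have e1 : riemannZeta s = 1 + 1 / (s - 1) - s * Pool.Agent.Helper66.AF.J1 s := by
    rw [hz]
    congr 1
    field_simp
    ring
  have hns : ‖s‖ ≤ 5 / 4 * s.re := by
    have := Complex.norm_le_abs_re_add_abs_im s
    rw [him, abs_of_pos (by linarith : (0:ℝ) < s.re), abs_of_pos (by linarith : (0:ℝ) < 2 * t)] at this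
    rw [hre] at this ⊢
    linarith
  have hsJ : ‖s * Pool.Agent.Helper66.AF.J1 s‖ ≤ 5 / 4 := by
    rw [norm_mul]
    have hr0 : 0 < s.re := by linarith
    calc ‖s‖ * ‖Pool.Agent.Helper66.AF.J1 s‖ ≤ (5 / 4 * s.re) * (1 / s.re) :=
          mul_le_mul hns hJ (norm_nonneg _) (by positivity)
      _ = 5 / 4 := by field_simp
  have hinv : (1 / (s - 1)).im = -(2 * t) / (4 * σ ^ 2 + 4 * t ^ 2) := by
    rw [one_div, Complex.inv_im, Complex.normSq_apply, Complex.sub_re, Complex.sub_im, hre, him]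
    simp only [Complex.one_re, Complex.one_im, sub_zero]
    congr 1
    ring
  have hnorm : ‖1 / (s - 1)‖ ≤ 8 := by
    rw [norm_div, norm_one]
    have h5 : |(s - 1).im| ≤ ‖s - 1‖ := Complex.abs_im_le_norm _
    rw [Complex.sub_im, him, Complex.one_im, sub_zero, abs_of_pos (by linarith)] at h5
    rw [div_le_iff₀ (by linarith)]
    linarith
  constructor
  · have h6 : (riemannZeta s).im = -(2 * t) / (4 * σ ^ 2 + 4 * t ^ 2) - (s * Pool.Agent.Helper66.AF.J1 s).im := by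
      rw [e1, Complex.sub_im, Complex.add_im, hinv, Complex.one_im, zero_add]
    have h7 : |(s * Pool.Agent.Helper66.AF.J1 s).im| ≤ 5 / 4 := (Complex.abs_im_le_norm _).trans hsJ
    have h8 : 3 ≤ 2 * t / (4 * σ ^ 2 + 4 * t ^ 2) := by
      rw [le_div_iff₀ (by positivity)]
      nlinarith
    rw [h6, neg_div]
    have h9 := abs_le.1 h7
    rw [abs_of_neg (by linarith [h9.1])]
    linarith [h9.1]
  · rw [e1]
    calc ‖1 + 1 / (s - 1) - s * Pool.Agent.Helper66.AF.J1 s‖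
        ≤ ‖1 + 1 / (s - 1)‖ + ‖s * Pool.Agent.Helper66.AF.J1 s‖ := norm_sub_le _ _
      _ ≤ (‖(1 : ℂ)‖ + ‖1 / (s - 1)‖) + ‖s * Pool.Agent.Helper66.AF.J1 s‖ := by
          gcongr
          exact norm_add_le _ _
      _ ≤ 11 := by
          rw [norm_one]
          linarith

theorem comb_low {z : ℂ} (h1 : 1 ≤ |z.im|) (h2 : ‖z‖ ≤ 11) {a b : ℝ} (hab : |a| + |b| = 1) :
    1 / 24 ≤ ‖(a : ℂ) + (b : ℂ) * z‖ := by
  rcases le_or_gt (1 / 24) |b| with h | h
  · have h3 : |((a : ℂ) + (b : ℂ) * z).im| ≤ ‖(a : ℂ) + (b : ℂ) * z‖ := Complex.abs_im_le_norm _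
    have h4 : ((a : ℂ) + (b : ℂ) * z).im = b * z.im := by simp
    rw [h4, abs_mul] at h3
    refine le_trans ?_ h3
    calc (1 : ℝ) / 24 = 1 / 24 * 1 := (mul_one _).symm
      _ ≤ |b| * |z.im| := mul_le_mul h h1 zero_le_one (abs_nonneg _)
  · have h3 : ‖(a : ℂ)‖ - ‖(b : ℂ) * z‖ ≤ ‖(a : ℂ) + (b : ℂ) * z‖ := by
      have := norm_sub_le ((a : ℂ) + (b : ℂ) * z) ((b : ℂ) * z)
      rw [add_sub_cancel_right] at this
      linarith
    rw [norm_mul, Complex.norm_real, Complex.norm_real, Real.norm_eq_abs, Real.norm_eq_abs] at h3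
    have h4 : |b| * ‖z‖ ≤ |b| * 11 := mul_le_mul_of_nonneg_left h2 (abs_nonneg _)
    linarith

theorem lower_Dc (δ : ℝ) (hδ : 0 < δ) : ∃ r0 : ℕ, ∀ r : ℕ, r0 ≤ r → ∀ T : Finset ℕ, Gch (δ / 4) r T →
    ∀ a b : ℝ, |a| + |b| = 1 → ∀ k : ℕ, 2 ^ (r / 4) ≤ k → k ≤ 2 ^ r →
      2 ^ r * (r : ℝ) ^ (-(1 / 2) - δ) ≤
        ∫ t in (1 / 16 : ℝ)..(1 / 8), (1 - Real.cos (k * t)) * ‖cmbD a b (Df r T) (Dg r T) t‖ ^ 2 := by
  obtain ⟨r1, h1⟩ := lower_Df (δ / 2) (by positivity)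
  obtain ⟨r2, h2⟩ := sr_small (1 / 100) (by norm_num)
  have h3 := (tendsto_rpow_atTop (show 0 < δ / 2 by positivity)).comp tendsto_natCast_atTop_atTop
  obtain ⟨r3, h4⟩ := Filter.eventually_atTop.1 (h3.eventually_ge_atTop (1 / (1 / 24 : ℝ) ^ 2))
  refine ⟨max (max r1 r2) (max r3 2), fun r hr T hG a b hab k hk1 hk2 => ?_⟩
  have hr1 : r1 ≤ r := ((le_max_left _ _).trans (le_max_left _ _)).trans hr
  have hr2 : r2 ≤ r := ((le_max_right _ _).trans (le_max_left _ _)).trans hr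
  have hr3 : r3 ≤ r := ((le_max_left _ _).trans (le_max_right _ _)).trans hr
  have hr4 : 2 ≤ r := ((le_max_right _ _).trans (le_max_right _ _)).trans hr
  have hr0 : (0 : ℝ) < r := by exact_mod_cast (show 0 < r by omega)
  have h5 := h1 r hr1 T (by rw [show δ / 2 / 2 = δ / 4 by ring]; exact hG) k hk1 hk2
  have h6 : (1 / 24 : ℝ) ^ 2 * ∫ t in (1 / 16 : ℝ)..(1 / 8), (1 - Real.cos (k * t)) * ‖Df r T t‖ ^ 2 ≤
      ∫ t in (1 / 16 : ℝ)..(1 / 8), (1 - Real.cos (k * t)) * ‖cmbD a b (Df r T) (Dg r T) t‖ ^ 2 := by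
    rw [← intervalIntegral.integral_const_mul]
    have hz0 : ∀ t : ℝ, (1 : ℝ) / 16 ≤ t → 2 * (((1 / 2 + sr r : ℝ) : ℂ) + Complex.I * (t : ℂ)) ≠ 1 := by
      intro t ht h0
      have := congrArg Complex.im h0
      simp at this
      linarith
    apply intervalIntegral.integral_mono_on (by norm_num)
    · apply Continuous.intervalIntegrable
      have := continuous_Df r T
      fun_prop
    · apply ContinuousOn.intervalIntegrable
      rw [Set.uIcc_of_le (by norm_num)]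
      unfold cmbD Dg
      refine ContinuousOn.mul (by fun_prop) (ContinuousOn.pow (ContinuousOn.norm (ContinuousOn.add
        (continuous_const.mul (continuous_Df r T)).continuousOn
        (continuousOn_const.mul (ContinuousOn.mul ?_ (continuous_Df r T).continuousOn)))) 2)
      intro t ht
      have h7 : ContinuousAt riemannZeta (2 * (((1 / 2 + sr r : ℝ) : ℂ) + Complex.I * (t : ℂ))) :=
        (differentiableAt_riemannZeta (hz0 t ht.1)).continuousAt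
      have h8 : ContinuousAt (fun t : ℝ => 2 * (((1 / 2 + sr r : ℝ) : ℂ) + Complex.I * (t : ℂ))) t := by fun_prop
      exact (ContinuousAt.comp (f := fun t : ℝ => 2 * (((1 / 2 + sr r : ℝ) : ℂ) + Complex.I * (t : ℂ))) h7 h8).continuousWithinAt
    · intro t ht
      obtain ⟨k1, k2⟩ := zeta_im (sr_pos hr4) (h2 r hr2) ht.1 ht.2
      have h7 := comb_low k1 k2 hab
      have h8 : 0 ≤ 1 - Real.cos (k * t) := by linarith [Real.cos_le_one (k * t)]
      have e : cmbD a b (Df r T) (Dg r T) t =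
          ((a : ℂ) + (b : ℂ) * riemannZeta (2 * (((1 / 2 + sr r : ℝ) : ℂ) + Complex.I * (t : ℂ)))) * Df r T t := by
        unfold cmbD Dg
        ring
      have h9 : (1 / 24 : ℝ) ^ 2 ≤ ‖(a : ℂ) + (b : ℂ) * riemannZeta (2 * (((1 / 2 + sr r : ℝ) : ℂ) + Complex.I * (t : ℂ)))‖ ^ 2 :=
        pow_le_pow_left₀ (by norm_num) h7 2
      rw [e, norm_mul, mul_pow]
      calc (1 / 24 : ℝ) ^ 2 * ((1 - Real.cos (k * t)) * ‖Df r T t‖ ^ 2) =
            (1 - Real.cos (k * t)) * ((1 / 24 : ℝ) ^ 2 * ‖Df r T t‖ ^ 2) := by ring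
        _ ≤ _ := by gcongr
  refine le_trans ?_ h6
  refine le_trans ?_ (mul_le_mul_of_nonneg_left h5 (by positivity))
  have h7 : (r : ℝ) ^ (-(1 / 2) - δ / 2) = (r : ℝ) ^ (δ / 2) * (r : ℝ) ^ (-(1 / 2) - δ) := by
    rw [← Real.rpow_add hr0]
    congr 1
    ring
  have h8 : 1 / (1 / 24 : ℝ) ^ 2 ≤ (r : ℝ) ^ (δ / 2) := h4 r hr3
  rw [h7]
  have h9 : 1 ≤ (1 / 24 : ℝ) ^ 2 * (r : ℝ) ^ (δ / 2) := by
    rw [div_le_iff₀ (by positivity)] at h8
    linarith
  calc 2 ^ r * (r : ℝ) ^ (-(1 / 2) - δ) = 1 * (2 ^ r * (r : ℝ) ^ (-(1 / 2) - δ)) := (one_mul _).symm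
    _ ≤ (1 / 24 : ℝ) ^ 2 * (r : ℝ) ^ (δ / 2) * (2 ^ r * (r : ℝ) ^ (-(1 / 2) - δ)) := by gcongr
    _ = _ := by ring

end Pool.Agent.Helper66.LJ
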